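import Mathlib

set_option autoImplicit false

namespace Pool.Agent.Results.MP_b6be33_co.Neg

/-- `P` is an isomorphism-permutation of `G` (an isomorphism from `G` onto its complement). -/
def IsIsoPerm {V : Type} (G : SimpleGraph V) (P : Equiv.Perm V) : Prop :=
  ∀ u v : V, u ≠ v → (G.Adj u v ↔ ¬ G.Adj (P u) (P v))

/-- `F(G)`: vertices fixed by some isomorphism-permutation. -/
def FSet {V : Type} (G : SimpleGraph V) : Set V :=
  {v | ∃ P : Equiv.Perm V, IsIsoPerm G P ∧ P v = v}

/-- `G` is regular. -/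
def Regular {V : Type} (G : SimpleGraph V) : Prop :=
  ∃ d : ℕ, ∀ v : V, (G.neighborSet v).ncard = d

/-- the number of triangles of `G` containing `v`. -/
noncomputable def triAt {V : Type} (G : SimpleGraph V) (v : V) : ℕ :=
  {t : Finset V | G.IsNClique 3 t ∧ v ∈ t}.ncard

def nb : Fin 9 → List (Fin 9) :=
  ![[1, 2, 7, 8], [0, 5, 6, 7], [0, 3, 5, 8], [2, 4, 5, 7], [3, 5, 6, 8], [1, 2, 3, 4],
    [1, 4, 7, 8], [0, 1, 3, 6], [0, 2, 4, 6]]

def adjB (u v : Fin 9) : Bool := (nb u).contains v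

def G9 : SimpleGraph (Fin 9) where
  Adj u v := adjB u v = true
  symm := ⟨by
    have h : ∀ u v : Fin 9, adjB u v = true → adjB v u = true := by decide +kernel
    exact h⟩
  loopless := ⟨by
    have h : ∀ u : Fin 9, ¬ (adjB u u = true) := by decide +kernel
    exact h⟩

instance : DecidableRel G9.Adj := fun u v => inferInstanceAs (Decidable (adjB u v = true))

def P0 : Equiv.Perm (Fin 9) where
  toFun := ![1, 2, 3, 0, 5, 6, 7, 4, 8]
  invFun := ![3, 0, 1, 2, 7, 4, 5, 6, 8]
  left_inv := by decide +kernel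
  right_inv := by decide +kernel

theorem P0_iso : IsIsoPerm G9 P0 := by
  have h : ∀ u v : Fin 9, u ≠ v →
      (adjB u v = true ↔ ¬ (adjB (P0 u) (P0 v) = true)) := by decide +kernel
  exact h

theorem reg : Regular G9 := by
  refine ⟨4, fun v => ?_⟩
  rw [Set.ncard_eq_toFinset_card']
  revert v
  decide +kernel

theorem selfc : Nonempty (G9 ≃g G9ᶜ) := by
  refine ⟨⟨P0, ?_⟩⟩
  intro u v
  rw [SimpleGraph.compl_adj]
  by_cases huv : u = v
  · subst huv
    simp
  · have h := P0_iso u v huv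
    constructor
    · intro h2
      exact h.2 h2.2
    · intro h2
      exact ⟨fun h3 => huv (P0.injective h3), h.1 h2⟩

theorem tri0 : triAt G9 0 = 2 := by
  unfold triAt
  rw [Set.ncard_eq_toFinset_card']
  decide +kernel

def okB (a b c d : Fin 9) : Bool :=
  a == 0 || adjB 0 a || b == 0 || adjB 0 b || a == b || adjB a b || c == 0 || adjB 0 c ||
    a == c || b == c || d == 0 || adjB 0 d || a == d || b == d || c == d || adjB c d

theorem key0 : ∀ a b c d : Fin 9, okB a b c d = true := by decide +kernel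

theorem key : ∀ a : Fin 9, a ≠ 0 → ¬ (adjB 0 a = true) →
    ∀ b : Fin 9, b ≠ 0 → ¬ (adjB 0 b = true) → a ≠ b → ¬ (adjB a b = true) →
    ∀ c : Fin 9, c ≠ 0 → ¬ (adjB 0 c = true) → a ≠ c → b ≠ c →
    ∀ d : Fin 9, d ≠ 0 → ¬ (adjB 0 d = true) → a ≠ d → b ≠ d → c ≠ d →
      adjB c d = true := by
  intro a h1 h2 b h3 h4 h5 h6 c h7 h8 h9 h10 d h11 h12 h13 h14 h15
  have h := key0 a b c d
  simpa [okB, h1, h2, h3, h4, h5, h6, h7, h8, h9, h10, h11, h12, h13, h14, h15] using h

theorem notF : (0 : Fin 9) ∉ FSet G9 := by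
  rintro ⟨P, hP, h0⟩
  have ne : ∀ x y : Fin 9, x ≠ y → P x ≠ P y := fun x y h h2 => h (P.injective h2)
  have n0 : ∀ x : Fin 9, x ≠ 0 → P x ≠ 0 := fun x h h2 => h (P.injective (h2.trans h0.symm))
  have na : ∀ x y : Fin 9, x ≠ y → adjB x y = true → ¬ (adjB (P x) (P y) = true) :=
    fun x y h h2 => (hP x y h).1 h2
  have nz : ∀ x : Fin 9, 0 ≠ x → adjB 0 x = true → ¬ (adjB 0 (P x) = true) := by
    intro x h h2
    have h3 := na 0 x h h2
    rwa [h0] at h3
  exact na 2 8 (by decide) (by decide +kernel)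
    (key (P 1) (n0 1 (by decide)) (nz 1 (by decide) (by decide +kernel))
      (P 7) (n0 7 (by decide)) (nz 7 (by decide) (by decide +kernel)) (ne 1 7 (by decide))
      (na 1 7 (by decide) (by decide +kernel))
      (P 2) (n0 2 (by decide)) (nz 2 (by decide) (by decide +kernel)) (ne 1 2 (by decide))
      (ne 7 2 (by decide))
      (P 8) (n0 8 (by decide)) (nz 8 (by decide) (by decide +kernel)) (ne 1 8 (by decide))
      (ne 7 8 (by decide)) (ne 2 8 (by decide)))

/-- The converse of Kotzig's necessary condition fails (already for `k = 2`). -/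
theorem result :
    ¬ ∀ (V : Type) [Finite V] (G : SimpleGraph V) (k : ℕ), Regular G → Nonempty (G ≃g Gᶜ) →
      Nat.card V = 4 * k + 1 → ∀ v : V, triAt G v = k * (k - 1) → v ∈ FSet G := by
  intro h
  exact notF (h (Fin 9) G9 2 reg selfc (by simp) 0 tri0)

end Pool.Agent.Results.MP_b6be33_co.Neg
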